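import Pool.Agent.Helper70.SK.Stmts

namespace Pool.Agent.Helper70.SK

open Finset Matrix in
theorem lina_det_bound {p : ℕ} (M : Matrix (Fin p) (Fin p) ℝ) (j0 : Fin p) (Mx b : ℝ)
    (hMx : 0 ≤ Mx) (h1 : ∀ i j, j ≠ j0 → |M i j| ≤ Mx) (h2 : ∀ i, |M i j0| ≤ b) :
    |M.det| ≤ p.factorial * Mx ^ (p - 1) * b := by
  rw [Matrix.det_apply]
  refine (Finset.abs_sum_le_sum_abs _ _).trans ?_
  have hterm : ∀ σ : Equiv.Perm (Fin p), |Equiv.Perm.sign σ • ∏ i, M (σ i) i| ≤ Mx ^ (p - 1) * b := by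
    intro σ
    have h0 : |Equiv.Perm.sign σ • ∏ i, M (σ i) i| = ∏ i, |M (σ i) i| := by
      rw [← Finset.abs_prod]
      rcases Int.units_eq_one_or (Equiv.Perm.sign σ) with h | h <;> simp [h]
    rw [h0, ← Finset.mul_prod_erase _ _ (Finset.mem_univ j0), mul_comm]
    have h3 : ∏ i ∈ Finset.univ.erase j0, |M (σ i) i| ≤ Mx ^ (p - 1) := by
      have := Finset.prod_le_prod (s := Finset.univ.erase j0) (f := fun i => |M (σ i) i|)
        (g := fun _ => Mx) (fun i _ => abs_nonneg _) (fun i hi => h1 _ _ (Finset.ne_of_mem_erase hi))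
      refine this.trans (le_of_eq ?_)
      rw [Finset.prod_const, Finset.card_erase_of_mem (Finset.mem_univ _), Finset.card_univ,
        Fintype.card_fin]
    exact mul_le_mul h3 (h2 _) (abs_nonneg _) (pow_nonneg hMx _)
  refine (Finset.sum_le_sum (fun σ _ => hterm σ)).trans (le_of_eq ?_)
  rw [Finset.sum_const, Finset.card_univ, Fintype.card_perm, Fintype.card_fin, nsmul_eq_mul]
  ring

open Finset Matrix in
theorem lina_kernel {m q p : ℕ} (N : Matrix (Fin q) (Fin m) ℝ) (V : Matrix (Fin m) (Fin p) ℝ)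
    (lam : ℝ) (hmpq : m < p + q) (hlam : 0 < lam)
    (hN : ∀ v : Fin q → ℝ, lam * ∑ r, v r ^ 2 ≤ ∑ c, (∑ r, v r * N r c) ^ 2) :
    ∃ (c : Fin p → ℝ) (z : Fin q → ℝ), c ≠ 0 ∧ ∀ i, (V *ᵥ c) i = ∑ r, z r * N r i := by
  let L : ((Fin p → ℝ) × (Fin q → ℝ)) →ₗ[ℝ] (Fin m → ℝ) :=
    V.mulVecLin.coprod (-(N.transpose.mulVecLin))
  have hk : LinearMap.ker L ≠ ⊥ := by
    apply LinearMap.ker_ne_bot_of_finrank_lt
    simp [Module.finrank_prod]
    omega
  obtain ⟨⟨c, z⟩, hmem, hne⟩ := Submodule.exists_mem_ne_zero_of_ne_bot hk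
  have hL : V *ᵥ c + -(z ᵥ* N) = 0 := by
    have := LinearMap.mem_ker.1 hmem
    simpa [L, Matrix.mulVec_transpose] using this
  have hi : ∀ i, (V *ᵥ c) i = ∑ r, z r * N r i := by
    intro i
    have h1 := congrFun hL i
    simp only [Pi.add_apply, Pi.neg_apply, Pi.zero_apply] at h1
    have h2 : (z ᵥ* N) i = ∑ r, z r * N r i := by
      simp only [Matrix.vecMul, dotProduct]
    linarith
  refine ⟨c, z, ?_, hi⟩
  rintro rfl
  apply hne
  have hz : ∑ c, (∑ r, z r * N r c) ^ 2 = 0 := by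
    apply Finset.sum_eq_zero
    intro i _
    rw [← hi i]
    simp
  have h3 := hN z
  rw [hz] at h3
  have h4 : ∑ r, z r ^ 2 = 0 := by
    have : 0 ≤ ∑ r, z r ^ 2 := Finset.sum_nonneg (fun _ _ => sq_nonneg _)
    nlinarith
  rw [Finset.sum_eq_zero_iff_of_nonneg (fun _ _ => sq_nonneg _)] at h4
  have hz0 : z = 0 := by
    funext r
    have := h4 r (Finset.mem_univ _)
    simpa using this
  rw [hz0]
  rfl

open Finset Matrix in
theorem lina_bound {m q p : ℕ} (N : Matrix (Fin q) (Fin m) ℝ) (V : Matrix (Fin m) (Fin p) ℝ)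
    (lam ε0 K : ℝ) (hlam : 0 < lam) (hε : 0 ≤ ε0) (hK : 0 ≤ K)
    (hN : ∀ v : Fin q → ℝ, lam * ∑ r, v r ^ 2 ≤ ∑ c, (∑ r, v r * N r c) ^ 2)
    (hNV : ∀ r i, |(N * V) r i| ≤ ε0) (c : Fin p → ℝ) (z : Fin q → ℝ) (hc : ∀ i, |c i| ≤ K)
    (h : ∀ i, (V *ᵥ c) i = ∑ r, z r * N r i) (i : Fin m) :
    |(V *ᵥ c) i| ≤ p * Real.sqrt q * ε0 / Real.sqrt lam * K := by
  set w : Fin m → ℝ := V *ᵥ c with hw
  set S : ℝ := ∑ i, w i ^ 2 with hS
  set Z : ℝ := ∑ r, z r ^ 2 with hZ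
  have hS0 : 0 ≤ S := Finset.sum_nonneg (fun _ _ => sq_nonneg _)
  have hZ0 : 0 ≤ Z := Finset.sum_nonneg (fun _ _ => sq_nonneg _)
  have hZS : lam * Z ≤ S := by
    have h1 := hN z
    have h2 : ∑ c, (∑ r, z r * N r c) ^ 2 = S := by
      rw [hS]
      exact Finset.sum_congr rfl (fun i _ => by rw [h i])
    rw [h2] at h1
    exact h1
  have hNw : ∀ r, |(N *ᵥ w) r| ≤ p * ε0 * K := by
    intro r
    rw [hw, Matrix.mulVec_mulVec]
    simp only [Matrix.mulVec, dotProduct]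
    refine (Finset.abs_sum_le_sum_abs _ _).trans ?_
    calc ∑ i, |(N * V) r i * c i| ≤ ∑ _i : Fin p, ε0 * K := by
          apply Finset.sum_le_sum
          intro i _
          rw [abs_mul]
          exact mul_le_mul (hNV r i) (hc i) (abs_nonneg _) hε
      _ = p * ε0 * K := by
          rw [Finset.sum_const, Finset.card_univ, Fintype.card_fin, nsmul_eq_mul]
          ring
  have hSE : S = ∑ r, (N *ᵥ w) r * z r := by
    have h1 : S = ∑ i, w i * ∑ r, z r * N r i := by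
      rw [hS]
      exact Finset.sum_congr rfl (fun i _ => by rw [← h i]; ring)
    rw [h1]
    simp only [Finset.mul_sum, Matrix.mulVec, dotProduct, Finset.sum_mul]
    rw [Finset.sum_comm]
    exact Finset.sum_congr rfl (fun r _ => Finset.sum_congr rfl (fun i _ => by ring))
  have hE0 : 0 ≤ p * ε0 * K := by positivity
  have hS2 : S ^ 2 ≤ (p * ε0 * K) ^ 2 * q * Z := by
    rw [hSE]
    have hCS := Finset.sum_mul_sq_le_sq_mul_sq (Finset.univ) (fun r => (N *ᵥ w) r) z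
    refine hCS.trans ?_
    have h1 : ∑ r, (N *ᵥ w) r ^ 2 ≤ (p * ε0 * K) ^ 2 * q := by
      calc ∑ r, (N *ᵥ w) r ^ 2 ≤ ∑ _r : Fin q, (p * ε0 * K) ^ 2 := by
            apply Finset.sum_le_sum
            intro r _
            rw [← sq_abs]
            exact pow_le_pow_left₀ (abs_nonneg _) (hNw r) 2
        _ = (p * ε0 * K) ^ 2 * q := by
            rw [Finset.sum_const, Finset.card_univ, Fintype.card_fin, nsmul_eq_mul]
            ring
    exact mul_le_mul_of_nonneg_right h1 hZ0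
  have hSb : S ≤ (p * ε0 * K) ^ 2 * q / lam := by
    rw [le_div_iff₀ hlam]
    rcases hS0.eq_or_lt with h0 | h0
    · rw [← h0]
      simp only [zero_mul]
      positivity
    · have h1 : S * (S * lam) ≤ S * ((p * ε0 * K) ^ 2 * q) := by
        calc S * (S * lam) = S ^ 2 * lam := by ring
          _ ≤ (p * ε0 * K) ^ 2 * q * Z * lam := mul_le_mul_of_nonneg_right hS2 hlam.le
          _ = (p * ε0 * K) ^ 2 * q * (lam * Z) := by ring
          _ ≤ (p * ε0 * K) ^ 2 * q * S := mul_le_mul_of_nonneg_left hZS (by positivity)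
          _ = S * ((p * ε0 * K) ^ 2 * q) := by ring
      exact le_of_mul_le_mul_left h1 h0
  have hwi : w i ^ 2 ≤ S := by
    rw [hS]
    exact Finset.single_le_sum (f := fun i => w i ^ 2) (fun _ _ => sq_nonneg _) (Finset.mem_univ i)
  apply abs_le_of_sq_le_sq' _ _ |> fun h => abs_le.2 h
  · refine (hwi.trans hSb).trans (le_of_eq ?_)
    have hl : Real.sqrt lam ^ 2 = lam := Real.sq_sqrt hlam.le
    have hq : Real.sqrt (q : ℝ) ^ 2 = q := Real.sq_sqrt (Nat.cast_nonneg q)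
    rw [mul_pow (_ / _), div_pow, hl, mul_pow (_ * _) ε0, mul_pow (p : ℝ), hq]
    ring
  · positivity

open Finset Matrix in
theorem lina_main (m q p : ℕ) (N : Matrix (Fin q) (Fin m) ℝ) (V : Matrix (Fin m) (Fin p) ℝ)
    (lam Mx ε0 : ℝ) (hmpq : m < p + q) (hp : 1 ≤ p) (hlam : 0 < lam) (hMx : 0 ≤ Mx) (hε : 0 ≤ ε0)
    (hN : ∀ v : Fin q → ℝ, lam * ∑ r, v r ^ 2 ≤ ∑ c, (∑ r, v r * N r c) ^ 2)
    (hV : ∀ c i, |V c i| ≤ Mx) (hNV : ∀ r i, |(N * V) r i| ≤ ε0) (I : Fin p → Fin m) :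
    |(V.submatrix I id).det| ≤ p.factorial * Mx ^ (p - 1) * (p * Real.sqrt q * ε0 / Real.sqrt lam) := by
  obtain ⟨c, z, hc0, h⟩ := lina_kernel N V lam hmpq hlam hN
  have : Nonempty (Fin p) := ⟨⟨0, hp⟩⟩
  obtain ⟨j0, hj0⟩ := Finite.exists_max (fun i => |c i|)
  have hpos : 0 < |c j0| := by
    rcases (abs_nonneg (c j0)).eq_or_lt with h0 | h0
    · exfalso
      apply hc0
      funext i
      have h1 := hj0 i
      rw [← h0] at h1
      exact abs_eq_zero.1 (le_antisymm h1 (abs_nonneg _))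
    · exact h0
  have hb := lina_bound N V lam ε0 (|c j0|) hlam hε (abs_nonneg _) hN hNV c z hj0 h
  set A : Matrix (Fin p) (Fin p) ℝ := V.submatrix I id with hA
  have hAc : ∀ i, (A *ᵥ c) i = (V *ᵥ c) (I i) := by
    intro i
    simp [hA, Matrix.mulVec, dotProduct, Matrix.submatrix_apply]
  have hcr : A.det * c j0 = (A.updateCol j0 (A *ᵥ c)).det := by
    rw [← Matrix.cramer_apply, Matrix.cramer_eq_adjugate_mulVec, Matrix.mulVec_mulVec,
      Matrix.adjugate_mul]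
    simp [Matrix.smul_mulVec]
  have hd := lina_det_bound (A.updateCol j0 (A *ᵥ c)) j0 Mx
    (p * Real.sqrt q * ε0 / Real.sqrt lam * |c j0|) hMx
    (fun i j hj => by
      rw [Matrix.updateCol_ne hj]
      exact hV _ _)
    (fun i => by
      rw [Matrix.updateCol_self, hAc]
      exact hb _)
  rw [← hcr, abs_mul] at hd
  have h2 : |A.det| * |c j0| ≤ (p.factorial * Mx ^ (p - 1) * (p * Real.sqrt q * ε0 / Real.sqrt lam)) * |c j0| := by
    refine hd.trans (le_of_eq ?_)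
    ring
  exact le_of_mul_le_mul_right h2 hpos

theorem st_LINA : ST_LINA :=
  fun m q p N V lam Mx ε0 h1 h2 h3 h4 h5 h6 h7 h8 I => lina_main m q p N V lam Mx ε0 h1 h2 h3 h4 h5 h6 h7 h8 I

end Pool.Agent.Helper70.SK
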