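import Pool.Agent.Helper70.SK.Stmts

namespace Pool.Agent.Helper70.SK

open Finset

theorem rep_absdiff (a b s : ℤ) (hs : 0 < s) (h : a / s = b / s) : |a - b| ≤ s := by
  have h1 := Int.emod_add_mul_ediv a s
  have h2 := Int.emod_add_mul_ediv b s
  have h3 := Int.emod_nonneg a hs.ne'
  have h4 := Int.emod_lt_of_pos a hs
  have h5 := Int.emod_nonneg b hs.ne'
  have h6 := Int.emod_lt_of_pos b hs
  rw [h] at h1
  rw [abs_le]
  constructor <;> linarith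

theorem rep_range (a s X : ℤ) (hs : 0 < s) (h : |a| ≤ X * s) : -X ≤ a / s ∧ a / s ≤ X := by
  rw [abs_le] at h
  constructor
  · rw [Int.le_ediv_iff_mul_le hs]
    linarith [h.1]
  · have h1 : a / s ≤ (X * s) / s := Int.ediv_le_ediv hs h.2
    rwa [Int.mul_ediv_cancel _ hs.ne'] at h1

theorem st_REP : ST_REP := by
  intro m q B Q D hB hD
  let K : Finset (ℤ × (Fin q → Fin m → ℤ)) :=
    (Finset.Icc 0 ((B : ℤ) ^ Q)) ×ˢ Fintype.piFinset (fun _ => Fintype.piFinset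
      (fun _ => Finset.Icc (-((⌈D⌉₊ : ℤ) * (B : ℤ) ^ Q)) ((⌈D⌉₊ : ℤ) * (B : ℤ) ^ Q)))
  refine ⟨K.card + 1, by omega, ?_⟩
  intro σ R κ C hok hQ
  have hB0 : (0 : ℤ) < (B : ℤ) := by exact_mod_cast (by omega : 0 < B)
  let kap : ℕ → ℤ × (Fin q → Fin m → ℤ) := fun γ =>
    (σ.t γ / (B : ℤ) ^ (σ.a3 - Q), fun r c => σ.N γ r c / (B : ℤ) ^ (σ.a1 - Q))
  have hs3 : (0 : ℤ) < (B : ℤ) ^ (σ.a3 - Q) := pow_pos hB0 _
  have hs1 : (0 : ℤ) < (B : ℤ) ^ (σ.a1 - Q) := pow_pos hB0 _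
  have hQ3 : (B : ℤ) ^ σ.a3 = (B : ℤ) ^ Q * (B : ℤ) ^ (σ.a3 - Q) := by
    rw [← pow_add]
    congr 1
    have := hok.n3
    omega
  have hQ1 : (B : ℤ) ^ σ.a1 = (B : ℤ) ^ Q * (B : ℤ) ^ (σ.a1 - Q) := by
    rw [← pow_add]
    congr 1
    have := hok.n1
    omega
  have hkap : ∀ γ ∈ σ.G, kap γ ∈ K := by
    intro γ hγ
    obtain ⟨ht0, ht1⟩ := hok.tb γ hγ
    rw [Finset.mem_product]
    constructor
    · rw [Finset.mem_Icc]
      constructor
      · exact Int.ediv_nonneg ht0 hs3.le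
      · have h1 : |σ.t γ| ≤ (B : ℤ) ^ Q * (B : ℤ) ^ (σ.a3 - Q) := by
          rw [abs_of_nonneg ht0, ← hQ3]
          exact ht1
        exact (rep_range _ _ _ hs3 h1).2
    · rw [Fintype.mem_piFinset]
      intro r
      rw [Fintype.mem_piFinset]
      intro c
      rw [Finset.mem_Icc]
      have h1 : |σ.N γ r c| ≤ ((⌈D⌉₊ : ℤ) * (B : ℤ) ^ Q) * (B : ℤ) ^ (σ.a1 - Q) := by
        rw [mul_assoc, ← hQ1]
        have h2 := hok.nb γ hγ r c
        have h3 : |(σ.N γ r c : ℝ)| ≤ (⌈D⌉₊ : ℝ) * (B : ℝ) ^ σ.a1 :=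
          h2.trans (mul_le_mul_of_nonneg_right (Nat.le_ceil D) (by positivity))
        exact_mod_cast h3
      exact rep_range _ _ _ hs1 h1
  have hinh : Nonempty ℕ := ⟨0⟩
  let sec : ℤ × (Fin q → Fin m → ℤ) → ℕ := Function.invFunOn kap (σ.G : Set ℕ)
  have hsec : ∀ γ ∈ σ.G, sec (kap γ) ∈ σ.G ∧ kap (sec (kap γ)) = kap γ := by
    intro γ hγ
    have hex : ∃ a ∈ (σ.G : Set ℕ), kap a = kap γ := ⟨γ, hγ, rfl⟩
    exact ⟨Function.invFunOn_mem hex, Function.invFunOn_eq hex⟩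
  refine ⟨fun γ => sec (kap γ), ?_, ?_⟩
  · intro γ hγ
    obtain ⟨h1, h2⟩ := hsec γ hγ
    refine ⟨h1, ?_, ?_⟩
    · exact rep_absdiff _ _ _ hs3 (congrArg Prod.fst h2).symm
    · intro r c
      exact rep_absdiff _ _ _ hs1 (congrFun (congrFun (congrArg Prod.snd h2) r) c).symm
  · have h1 : σ.G.image (fun γ => sec (kap γ)) = (σ.G.image kap).image sec := by
      rw [Finset.image_image]
      rfl
    rw [h1]
    have h2 : (σ.G.image kap) ⊆ K := by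
      intro x hx
      obtain ⟨γ, hγ, rfl⟩ := Finset.mem_image.1 hx
      exact hkap γ hγ
    exact (Finset.card_image_le.trans (Finset.card_le_card h2)).trans (Nat.le_succ _)

end Pool.Agent.Helper70.SK
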